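import Pool.Agent.Y116.BS.Main

/-!
# Beilinson–Soulé vanishing for complex varieties
-/

set_option autoImplicit false

open CategoryTheory AlgebraicGeometry Polynomial Cardinal

namespace Pool.Agent.Y116.BS

/-- A countable field of characteristic zero embeds into the complex numbers. -/
lemma embed (K : Type) [Field K] [CharZero K] (hK : #K ≤ ℵ₀) : Nonempty (K →+* ℂ) := by
  let L := FractionRing (MvPolynomial ℝ K)
  let Ω := AlgebraicClosure L
  have hL : #L = 𝔠 := by
    rw [FractionRing.cardinalMk, MvPolynomial.cardinalMk_eq_max, Cardinal.mk_real,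
      max_eq_right (hK.trans aleph0_le_continuum), max_eq_left aleph0_le_continuum]
  have hΩ : #Ω = 𝔠 := by
    apply le_antisymm
    · refine (Algebra.IsAlgebraic.cardinalMk_le_max L Ω).trans ?_
      rw [hL, max_eq_left aleph0_le_continuum]
    · rw [← hL]
      exact Cardinal.mk_le_of_injective (algebraMap L Ω).injective
  have : CharZero L := charZero_of_injective_algebraMap (FaithfulSMul.algebraMap_injective K L)
  have : CharZero Ω := charZero_of_injective_algebraMap (algebraMap L Ω).injective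
  obtain ⟨e⟩ := IsAlgClosed.ringEquiv_of_equiv_of_charZero (K := Ω) (L := ℂ)
    (by rw [hΩ]; exact aleph0_lt_continuum)
    (Cardinal.eq.1 (by rw [hΩ, Cardinal.mk_complex]))
  exact ⟨e.toRingHom.comp ((algebraMap L Ω).comp (algebraMap K L))⟩

lemma mk_rat_le (r : ℕ) : #(Rat' ℚ r) ≤ ℵ₀ := by
  rw [FractionRing.cardinalMk]
  refine MvPolynomial.cardinalMk_le_max.trans ?_
  simp

/-- A finitely generated field of characteristic zero is countable. -/
lemma mk_fg_le (K : Type) [Field K] [CharZero K] [Algebra.EssFiniteType ℤ K] : #K ≤ ℵ₀ := by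
  have : Algebra.EssFiniteType ℚ K := Algebra.EssFiniteType.of_comp ℤ ℚ K
  obtain ⟨r, E, _, p, ⟨e⟩, -, ⟨e'⟩⟩ := exists_adjoinRoot ℚ K
  rw [← Cardinal.mk_congr e'.toEquiv]
  refine (Cardinal.mk_le_of_surjective (AdjoinRoot.mk_surjective (g := p))).trans ?_
  refine Polynomial.cardinalMk_le_max.trans ?_
  rw [← Cardinal.mk_congr e.toEquiv]
  exact max_le (mk_rat_le r) le_rfl

variable {M : MotivicCohomology} (hM : IsMotivicCohomology M)

include hM

/-- The vanishing for `ℂ` implies the vanishing for all fields of characteristic zero. -/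
lemma van_of_complex {i : ℤ} {n : ℕ} (h : Van M (pt ℂ) i n) (F : Type) [Field F] [CharZero F] :
    Van M (pt F) i n := by
  refine van_fg hM fun K _ f hK => ?_
  have : CharZero K := f.charZero
  obtain ⟨g⟩ := embed K (mk_fg_le K)
  exact van_sub hM g h

/-- The vanishing in degree zero for the rational function fields over `ℚ` implies the vanishing in
negative degrees for all fields of characteristic zero. -/
lemma van_neg (h : ∀ (r n : ℕ), 1 ≤ n → Van M (pt (Rat' ℚ r)) 0 n) (F : Type) [Field F]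
    [CharZero F] (m n : ℕ) : Van M (pt F) (-m - 1) n := by
  induction m generalizing F n with
  | zero =>
    refine van_fg hM fun K _ f hK => ?_
    have : CharZero K := f.charZero
    have : Algebra.EssFiniteType ℚ K := Algebra.EssFiniteType.of_comp ℤ ℚ K
    have h1 := van_of_rig hM (fun R _ => subsingleton_rat R) (i := 0) (n := n)
      (fun r x => ⟨0, by rw [map_zero, h r (n + 1) (by omega) x]⟩) K
    simpa using h1
  | succ m ih =>
    refine van_fg hM fun K _ f hK => ?_
    have : CharZero K := f.charZero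
    have : Algebra.EssFiniteType ℚ K := Algebra.EssFiniteType.of_comp ℤ ℚ K
    have h1 := van_of_rig hM (fun R _ => subsingleton_rat R) (i := -m - 1) (n := n)
      (fun r x => ⟨0, by rw [map_zero, ih _ (n + 1) x]⟩) K
    have h2 : (-(m : ℤ) - 1 - 1) = -((m + 1 : ℕ) : ℤ) - 1 := by push_cast; ring
    rwa [h2] at h1

/-- The vanishing in degree `-1` implies the one in degree zero for the rational function fields. -/
lemma van_rat (h : ∀ (F : Type) [Field F] [CharZero F] (n : ℕ), Van M (pt F) (-1) n) (r n : ℕ)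
    (hn : 1 ≤ n) : Van M (pt (Rat' ℚ r)) 0 n := by
  obtain ⟨n, rfl⟩ : ∃ m, n = m + 1 := ⟨n - 1, by omega⟩
  have h1 : Rig M ℚ 0 (n + 1) := by
    refine rig_of_surj hM (fun R _ => subsingleton_rat R) fun r x => surj_res hM (fun p _ => ?_) x
    have : CharZero (AdjoinRoot p) :=
      charZero_of_injective_algebraMap (algebraMap (Rat' ℚ r) (AdjoinRoot p)).injective
    have := h (AdjoinRoot p) n
    simpa using this
  intro x
  obtain ⟨y, rfl⟩ := h1 r x
  rw [hM.rational 0 (n + 1) le_rfl hn y, map_zero]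

/-- Beilinson–Soulé vanishing for complex varieties and for rational function fields over `ℚ`. -/
theorem weak (V : ∀ X : Scheme.{0}, (X ⟶ pt ℂ) → Prop) (hV : ∀ X f, V X f → Sm f)
    (h0 : V (pt ℂ) (𝟙 _)) :
    ((∀ X f, V X f → ∀ (i : ℤ) (n : ℕ), i < 0 → Van M X i n) ↔
      ∀ r n : ℕ, 1 ≤ n → Van M (pt (Rat' ℚ r)) 0 n) ∧
    ((∀ X f, V X f → ∀ (i : ℤ) (n : ℕ), i < 0 → Van M X i n) ↔
      ∀ n : ℕ, Van M (pt ℂ) (-1) n) ∧
    ((∀ X f, V X f → ∀ (i : ℤ) (n : ℕ), i < 0 → Van M X i n) ↔
      ∀ (k : Type) [Field k] [CharZero k] (X : Scheme.{0}) (f : X ⟶ pt k), Sm f →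
        ∀ (i : ℤ) (n : ℕ), i < 0 → Van M X i n) := by
  have h1 : (∀ r n : ℕ, 1 ≤ n → Van M (pt (Rat' ℚ r)) 0 n) →
      ∀ (k : Type) [Field k] [CharZero k] (X : Scheme.{0}) (f : X ⟶ pt k), Sm f →
        ∀ (i : ℤ) (n : ℕ), i < 0 → Van M X i n := by
    intro h k _ _ X f hf i n hi
    refine van_smooth hM k X f hf hi.le (Or.inl hi) fun F _ g j m hj _ => ?_
    have : CharZero F := charZero_of_injective_ringHom g.injective
    obtain ⟨a, rfl⟩ : ∃ a : ℕ, j = -a - 1 := ⟨(-j - 1).toNat, by omega⟩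
    exact van_neg hM h F a m
  have h2 : (∀ n : ℕ, Van M (pt ℂ) (-1) n) → ∀ r n : ℕ, 1 ≤ n → Van M (pt (Rat' ℚ r)) 0 n :=
    fun h r n hn => van_rat hM (fun F _ _ n => van_of_complex hM (h n) F) r n hn
  refine ⟨⟨fun h => h2 fun n => h _ _ h0 _ _ (by norm_num), fun h X f hX i n hi =>
    h1 h ℂ X f (hV X f hX) i n hi⟩, ⟨fun h n => h _ _ h0 _ _ (by norm_num), fun h X f hX i n hi =>
    h1 (h2 h) ℂ X f (hV X f hX) i n hi⟩, ⟨fun h => h1 (h2 fun n => h _ _ h0 _ _ (by norm_num)),
    fun h X f hX i n hi => h ℂ X f (hV X f hX) i n hi⟩⟩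

end Pool.Agent.Y116.BS
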