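import Mathlib

/-!
# Rational motivic cohomology of schemes: data and formal properties
-/

set_option autoImplicit false

open CategoryTheory AlgebraicGeometry Polynomial

namespace Pool.Agent.Y116.BS

/-- The rational function field in `r` variables over `k`. -/
abbrev Rat' (k : Type) [Field k] (r : ℕ) : Type := FractionRing (MvPolynomial (Fin r) k)

/-- The spectrum of a field. -/
noncomputable abbrev pt (F : Type) [Field F] : Scheme.{0} := Spec (CommRingCat.of F)

/-- The morphism of spectra of a homomorphism of fields. -/
noncomputable abbrev ptMap {F L : Type} [Field F] [Field L] (f : F →+* L) : pt L ⟶ pt F :=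
  Spec.map (CommRingCat.ofHom f)

/-- The data of the rational motivic cohomology groups `H X i n = H^i(X, ℚ(n))` of schemes (for
regular schemes the Adams eigenspaces `K_{2n-i}(X)_ℚ^{(n)}`, that is, the rational higher Chow groups
`CH^n(X, 2n - i)_ℚ`), with pull-backs. -/
structure MotivicCohomology where
  H : Scheme.{0} → ℤ → ℕ → Type
  [grp : ∀ X i n, AddCommGroup (H X i n)]
  pull : ∀ {X Y : Scheme.{0}}, (X ⟶ Y) → ∀ i n, H Y i n →+ H X i n

attribute [instance] MotivicCohomology.grp

/-- The group `H^i(X, ℚ(n))` is zero. -/
def Van (M : MotivicCohomology) (X : Scheme.{0}) (i : ℤ) (n : ℕ) : Prop := ∀ x : M.H X i n, x = 0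

/-- `f : X ⟶ Spec k` is smooth, separated and of finite type. -/
def Sm {k : Type} [Field k] {X : Scheme.{0}} (f : X ⟶ pt k) : Prop :=
  Smooth f ∧ QuasiCompact f ∧ IsSeparated f

/-- The pull-backs make the cohomology a functor. -/
def IsFunctor (M : MotivicCohomology) : Prop :=
  (∀ (X : Scheme.{0}) i n (x : M.H X i n), M.pull (𝟙 X) i n x = x) ∧
  ∀ {X Y Z : Scheme.{0}} (f : X ⟶ Y) (g : Y ⟶ Z) i n (x : M.H Z i n),
    M.pull (f ≫ g) i n x = M.pull f i n (M.pull g i n x)

/-- The cohomology is injective for extensions of fields. -/
def IsInjective (M : MotivicCohomology) : Prop :=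
  ∀ {F L : Type} [Field F] [Field L] (f : F →+* L) i n,
    Function.Injective (M.pull (ptMap f) i n)

/-- Continuity: a class over a field comes from a finitely generated field. -/
def IsContinuous (M : MotivicCohomology) : Prop :=
  ∀ (F : Type) [Field F] i n (x : M.H (pt F) i n), ∃ (K : Type) (_ : Field K) (f : K →+* F)
    (y : M.H (pt K) i n), Algebra.EssFiniteType ℤ K ∧ M.pull (ptMap f) i n y = x

/-- The localisation sequence of the affine line over a field `F`: there are residue maps from the
cohomology of the field `F(t)` to the cohomology of the residue fields `F[t]/(p)` of the closed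
points; they are surjective, and the classes without residues are the classes coming from `F`. -/
def HasResidues (M : MotivicCohomology) : Prop :=
  ∀ (F : Type) [Field F] (i : ℤ) (n : ℕ),
    ∃ res : ∀ (p : F[X]) [Fact (Irreducible p)],
      M.H (pt (RatFunc F)) i (n + 1) →+ M.H (pt (AdjoinRoot p)) (i - 1) n,
      (∀ (p : F[X]) [Fact (Irreducible p)], Function.Surjective (res p)) ∧
      ∀ x, (∀ (p : F[X]) [Fact (Irreducible p)], res p x = 0) ↔
        ∃ y, M.pull (ptMap (algebraMap F (RatFunc F))) i (n + 1) y = x

/-- Gersten's spectral sequence: the group `H^i(X, ℚ(n))` of a smooth separated scheme `X` of finite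
type over a field vanishes if the groups `H^{i-2c}(κ(x), ℚ(n-c))` vanish for all points `x` of
codimension `c ≤ n`. -/
def HasConiveau (M : MotivicCohomology) : Prop :=
  ∀ (k : Type) [Field k] (X : Scheme.{0}) (f : X ⟶ pt k), Sm f → ∀ (i : ℤ) (n : ℕ),
    (∀ (x : X) (c : ℕ), ringKrullDim (X.presheaf.stalk x) = c → c ≤ n →
      Van M (pt (X.residueField x)) (i - 2 * c) (n - c)) → Van M X i n

/-- Known properties of rational motivic cohomology (Bloch, Levine, Suslin, Voevodsky): it is a
functor, injective for extensions of fields (specialisation and transfer), continuous, has the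
localisation sequences of the affine lines over fields and Gersten's spectral sequences;
`weight_zero`: `H^i(F, ℚ(0)) = 0` for `i < 0`; `rational`: `H^i(ℚ, ℚ(n)) = 0` for `n ≥ 1`, `i ≤ 0`
(Borel). -/
structure IsMotivicCohomology (M : MotivicCohomology) : Prop where
  functor : IsFunctor M
  injective : IsInjective M
  continuous : IsContinuous M
  residue : HasResidues M
  coniveau : HasConiveau M
  weight_zero : ∀ (F : Type) [Field F] (i : ℤ), i < 0 → Van M (pt F) i 0
  rational : ∀ (i : ℤ) (n : ℕ), i ≤ 0 → 1 ≤ n → Van M (pt ℚ) i n

/-- Rigidity in degree one over the prime field `k`: for `n ≥ 2` the cohomology in degree one and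
weight `n` of the rational function fields over `k` is the one of `k`, that is,
`K_{2n-1}(k(t_1, …, t_r))_ℚ^{(n)} = K_{2n-1}(k)_ℚ^{(n)}`. -/
def Rigid (M : MotivicCohomology) (k : Type) [Field k] : Prop :=
  ∀ r n : ℕ, 2 ≤ n → Function.Bijective (M.pull (ptMap (algebraMap k (Rat' k r))) 1 n)

/-- Rigidity in degree one over all prime fields. -/
def Rigidity (M : MotivicCohomology) : Prop :=
  Rigid M ℚ ∧ ∀ (p : ℕ) [Fact p.Prime], Rigid M (ZMod p)

end Pool.Agent.Y116.BS
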