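import Pool.Agent.Y116.BS.Defs

/-!
# Finitely generated fields and rational function fields
-/

set_option autoImplicit false

open Polynomial

namespace Pool.Agent.Y116.BS

/-- The fraction field of `A[X]` is the rational function field over the fraction field of `A`. -/
lemma frac_poly (A E : Type) [CommRing A] [IsDomain A] [Field E] [Algebra A E]
    [IsFractionRing A E] : Nonempty (FractionRing A[X] ≃+* RatFunc E) := by
  let _ : Algebra A[X] (RatFunc E) :=
    ((algebraMap E[X] (RatFunc E)).comp (Polynomial.mapRingHom (algebraMap A E))).toAlgebra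
  have hmap : ∀ p : A[X], algebraMap A[X] (RatFunc E) p =
      algebraMap E[X] (RatFunc E) (p.map (algebraMap A E)) := fun p => rfl
  have hinj : Function.Injective (algebraMap A[X] (RatFunc E)) := by
    intro p q hpq
    rw [hmap, hmap] at hpq
    exact Polynomial.map_injective _ (IsFractionRing.injective A E)
      (IsFractionRing.injective E[X] (RatFunc E) hpq)
  have : FaithfulSMul A[X] (RatFunc E) := (faithfulSMul_iff_algebraMap_injective _ _).2 hinj
  have hfrac : IsFractionRing A[X] (RatFunc E) := by
    refine IsFractionRing.of_field _ _ fun z => ?_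
    obtain ⟨P, Q, hQ, rfl⟩ := IsFractionRing.div_surjective (A := E[X]) z
    obtain ⟨b, hbm, hb⟩ := IsLocalization.integerNormalization_spec (nonZeroDivisors A) P
    obtain ⟨c, hcm, hc⟩ := IsLocalization.integerNormalization_spec (nonZeroDivisors A) Q
    refine ⟨C c * IsLocalization.integerNormalization (nonZeroDivisors A) P,
      C b * IsLocalization.integerNormalization (nonZeroDivisors A) Q, ?_⟩
    have hb0 : algebraMap E[X] (RatFunc E) (C (algebraMap A E b)) ≠ 0 := by
      rw [Ne, map_eq_zero_iff _ (IsFractionRing.injective E[X] (RatFunc E)), C_eq_zero,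
        map_eq_zero_iff _ (IsFractionRing.injective A E)]
      exact nonZeroDivisors.ne_zero hbm
    have hc0 : algebraMap E[X] (RatFunc E) (C (algebraMap A E c)) ≠ 0 := by
      rw [Ne, map_eq_zero_iff _ (IsFractionRing.injective E[X] (RatFunc E)), C_eq_zero,
        map_eq_zero_iff _ (IsFractionRing.injective A E)]
      exact nonZeroDivisors.ne_zero hcm
    have hQ0 : algebraMap E[X] (RatFunc E) Q ≠ 0 := by
      rw [Ne, map_eq_zero_iff _ (IsFractionRing.injective E[X] (RatFunc E))]
      exact nonZeroDivisors.ne_zero hQ
    have hb' : (IsLocalization.integerNormalization (nonZeroDivisors A) P).map (algebraMap A E) =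
        C (algebraMap A E b) * P := by
      rw [hb, Algebra.smul_def]
      rfl
    have hc' : (IsLocalization.integerNormalization (nonZeroDivisors A) Q).map (algebraMap A E) =
        C (algebraMap A E c) * Q := by
      rw [hc, Algebra.smul_def]
      rfl
    rw [hmap, hmap, Polynomial.map_mul, Polynomial.map_mul, hb', hc', map_C, map_C, map_mul,
      map_mul, map_mul, map_mul]
    field_simp
  exact ⟨(IsLocalization.algEquiv (nonZeroDivisors A[X]) (FractionRing A[X])
    (RatFunc E)).toRingEquiv⟩

/-- Rational function fields over isomorphic fields are isomorphic. -/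
lemma ratFunc_congr {E F : Type} [Field E] [Field F] (e : E ≃+* F) :
    Nonempty (RatFunc E ≃+* RatFunc F) :=
  ⟨IsFractionRing.ringEquivOfRingEquiv (Polynomial.mapEquiv e)⟩

lemma ratFunc_rat (k : Type) [Field k] (r : ℕ) {E : Type} [Field E] (e : Rat' k r ≃+* E) :
    Nonempty (RatFunc E ≃+* Rat' k (r + 1)) := by
  obtain ⟨e1⟩ := ratFunc_congr e
  obtain ⟨e2⟩ := frac_poly (MvPolynomial (Fin r) k) (Rat' k r)
  exact ⟨(e1.symm.trans e2.symm).trans
    (IsFractionRing.ringEquivOfRingEquiv (MvPolynomial.finSuccEquiv k r).symm.toRingEquiv)⟩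

/-- A finitely generated field over a perfect field `k` is `E[X] / (f)` for a rational function
field `E` over `k`. -/
lemma exists_adjoinRoot (k K : Type) [Field k] [PerfectField k] [Field K] [Algebra k K]
    [Algebra.EssFiniteType k K] : ∃ (r : ℕ) (E : Type) (_ : Field E) (p : E[X]),
      Nonempty (Rat' k r ≃+* E) ∧ Irreducible p ∧ Nonempty (AdjoinRoot p ≃+* K) := by
  obtain ⟨s, hs, hsep⟩ := exists_isTranscendenceBasis_and_isSeparable_of_perfectField k K
  have hfin : Algebra.EssFiniteType (IntermediateField.adjoin k (s : Set K)) K :=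
    Algebra.EssFiniteType.of_comp k _ K
  have hun : Algebra.FormallyUnramified (IntermediateField.adjoin k (s : Set K)) K :=
    Algebra.FormallyUnramified.of_isSeparable _ _
  have hfd : Module.Finite (IntermediateField.adjoin k (s : Set K)) K :=
    Algebra.FormallyUnramified.finite_of_free _ _
  obtain ⟨α, hα⟩ := Field.exists_primitive_element (IntermediateField.adjoin k (s : Set K)) K
  have hint : IsIntegral (IntermediateField.adjoin k (s : Set K)) α := .of_finite _ _
  refine ⟨s.card, IntermediateField.adjoin k (s : Set K), inferInstance,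
    minpoly (IntermediateField.adjoin k (s : Set K)) α, ?_, minpoly.irreducible hint, ?_⟩
  · have e1 := hs.1.aevalEquivField
    have e2 : IntermediateField.adjoin k (Set.range ((↑) : s → K)) ≃+*
        IntermediateField.adjoin k (s : Set K) :=
      (IntermediateField.equivOfEq (by rw [Subtype.range_coe_subtype]; rfl)).toRingEquiv
    have e3 : Rat' k s.card ≃+* FractionRing (MvPolynomial s k) :=
      IsFractionRing.ringEquivOfRingEquiv
        (MvPolynomial.renameEquiv k s.equivFin.symm).toRingEquiv
    exact ⟨(e3.trans e1.toRingEquiv).trans e2⟩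
  · have e1 := IntermediateField.adjoinRootEquivAdjoin
      (IntermediateField.adjoin k (s : Set K)) hint
    rw [hα] at e1
    exact ⟨e1.toRingEquiv.trans IntermediateField.topEquiv.toRingEquiv⟩

end Pool.Agent.Y116.BS
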