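import Pool.Agent.Y116.BS.Field

/-!
# Beilinson–Soulé vanishing and rational function fields
-/

set_option autoImplicit false

open CategoryTheory AlgebraicGeometry Polynomial

namespace Pool.Agent.Y116.BS

variable {M : MotivicCohomology} (hM : IsMotivicCohomology M)

include hM

lemma pull_comp {F K L : Type} [Field F] [Field K] [Field L] (f : F →+* K) (g : K →+* L)
    (i : ℤ) (n : ℕ) (x : M.H (pt F) i n) :
    M.pull (ptMap g) i n (M.pull (ptMap f) i n x) = M.pull (ptMap (g.comp f)) i n x := by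
  rw [← hM.functor.2]
  have h1 : ptMap g ≫ ptMap f = ptMap (g.comp f) := by
    rw [ptMap, ptMap, ptMap, CommRingCat.ofHom_comp, Spec.map_comp]
  rw [h1]

lemma pull_id {F : Type} [Field F] (i : ℤ) (n : ℕ) (x : M.H (pt F) i n) :
    M.pull (ptMap (RingHom.id F)) i n x = x := by
  have h1 : ptMap (RingHom.id F) = 𝟙 (pt F) := by
    rw [ptMap, CommRingCat.ofHom_id, Spec.map_id]
  rw [h1, hM.functor.1]

lemma van_sub {F L : Type} [Field F] [Field L] (f : F →+* L) {i : ℤ} {n : ℕ}
    (h : Van M (pt L) i n) : Van M (pt F) i n := fun x =>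
  hM.injective f i n (by rw [h (M.pull (ptMap f) i n x), map_zero])

/-- Vanishing for the finitely generated fields implies vanishing. -/
lemma van_fg {F : Type} [Field F] {i : ℤ} {n : ℕ}
    (h : ∀ (K : Type) [Field K] (_ : K →+* F), Algebra.EssFiniteType ℤ K → Van M (pt K) i n) :
    Van M (pt F) i n := by
  intro x
  obtain ⟨K, _, f, y, hK, rfl⟩ := hM.continuous F i n x
  rw [h K f hK y, map_zero]

/-- The vanishing over `E[t]/(p)` from the vanishing over `E(t)` in the next degree. -/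
lemma van_res {E : Type} [Field E] (p : E[X]) [Fact (Irreducible p)] {i : ℤ} {n : ℕ}
    (h : ∀ x : M.H (pt (RatFunc E)) i (n + 1),
      ∃ y, M.pull (ptMap (algebraMap E (RatFunc E))) i (n + 1) y = x) :
    Van M (pt (AdjoinRoot p)) (i - 1) n := by
  intro z
  obtain ⟨res, h1, h2⟩ := hM.residue E i n
  obtain ⟨x, rfl⟩ := h1 p z
  exact (h2 x).2 (h x) p

/-- All classes over `E(t)` come from `E` if the residues vanish. -/
lemma surj_res {E : Type} [Field E] {i : ℤ} {n : ℕ}
    (h : ∀ (p : E[X]) [Fact (Irreducible p)], Van M (pt (AdjoinRoot p)) (i - 1) n)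
    (x : M.H (pt (RatFunc E)) i (n + 1)) :
    ∃ y, M.pull (ptMap (algebraMap E (RatFunc E))) i (n + 1) y = x := by
  obtain ⟨res, h1, h2⟩ := hM.residue E i n
  exact (h2 x).1 fun p _ => h p _

/-- Rigidity for the rational function fields over `k` in degree `i` and weight `n`. -/
def Rig (M : MotivicCohomology) (k : Type) [Field k] (i : ℤ) (n : ℕ) : Prop :=
  ∀ r : ℕ, Function.Surjective (M.pull (ptMap (algebraMap k (Rat' k r))) i n)

lemma rig_ratFunc {k : Type} [Field k] (hk : ∀ (R : Type) [Field R], Subsingleton (k →+* R))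
    {i : ℤ} {n : ℕ} (h : Rig M k i n) {r : ℕ} {E : Type} [Field E] (e : Rat' k r ≃+* E)
    (x : M.H (pt (RatFunc E)) i n) :
    ∃ y, M.pull (ptMap (algebraMap E (RatFunc E))) i n y = x := by
  obtain ⟨e1⟩ := ratFunc_rat k r e
  obtain ⟨z, hz⟩ := h (r + 1) (M.pull (ptMap e1.toRingHom) i n x)
  refine ⟨M.pull (ptMap (e.toRingHom.comp (algebraMap k (Rat' k r)))) i n z, ?_⟩
  apply hM.injective e1.toRingHom i n
  rw [pull_comp hM, pull_comp hM, ← hz]
  have := hk (Rat' k (r + 1))
  rw [Subsingleton.elim ((e1.toRingHom.comp (algebraMap E (RatFunc E))).comp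
    (e.toRingHom.comp (algebraMap k (Rat' k r)))) (algebraMap k (Rat' k (r + 1)))]

lemma rig_of_surj {k : Type} [Field k] (hk : ∀ (R : Type) [Field R], Subsingleton (k →+* R))
    {i : ℤ} {n : ℕ} (h : ∀ r : ℕ, ∀ x : M.H (pt (RatFunc (Rat' k r))) i n,
      ∃ y, M.pull (ptMap (algebraMap (Rat' k r) (RatFunc (Rat' k r)))) i n y = x) :
    Rig M k i n := by
  intro r
  induction r with
  | zero =>
    intro x
    let e : Rat' k 0 ≃+* k :=
      IsFractionRing.ringEquivOfRingEquiv (MvPolynomial.isEmptyAlgEquiv k (Fin 0)).toRingEquiv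
    refine ⟨M.pull (ptMap e.toRingHom) i n x, ?_⟩
    apply hM.injective e.toRingHom i n
    rw [pull_comp hM, pull_comp hM]
    have := hk k
    have h1 : (e.toRingHom.comp (algebraMap k (Rat' k 0))).comp e.toRingHom = e.toRingHom := by
      rw [Subsingleton.elim (e.toRingHom.comp (algebraMap k (Rat' k 0)))
        (RingHom.id k), RingHom.id_comp]
    rw [h1]
  | succ r ih =>
    intro x
    obtain ⟨e1⟩ := ratFunc_rat k r (RingEquiv.refl (Rat' k r))
    obtain ⟨y, hy⟩ := h r (M.pull (ptMap e1.symm.toRingHom) i n x)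
    obtain ⟨z, rfl⟩ := ih y
    refine ⟨z, ?_⟩
    apply hM.injective e1.symm.toRingHom i n
    rw [← hy, pull_comp hM, pull_comp hM]
    have := hk (RatFunc (Rat' k r))
    rw [Subsingleton.elim (e1.symm.toRingHom.comp (algebraMap k (Rat' k (r + 1))))
      ((algebraMap (Rat' k r) (RatFunc (Rat' k r))).comp (algebraMap k (Rat' k r)))]

/-- The vanishing for the finitely generated extensions of a perfect field `k`, from the rigidity in
the next degree. -/
lemma van_of_rig {k : Type} [Field k] [PerfectField k]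
    (hk : ∀ (R : Type) [Field R], Subsingleton (k →+* R)) {i : ℤ} {n : ℕ}
    (h : Rig M k i (n + 1)) (K : Type) [Field K] [Algebra k K] [Algebra.EssFiniteType k K] :
    Van M (pt K) (i - 1) n := by
  obtain ⟨r, E, _, p, ⟨e⟩, hp, ⟨e'⟩⟩ := exists_adjoinRoot k K
  have : Fact (Irreducible p) := ⟨hp⟩
  exact van_sub hM e'.symm.toRingHom (van_res hM p (rig_ratFunc hM hk h e))

omit hM in
lemma subsingleton_rat (R : Type) [Field R] : Subsingleton (ℚ →+* R) := inferInstance

omit hM in
lemma subsingleton_zmod (p : ℕ) (R : Type) [Field R] : Subsingleton (ZMod p →+* R) :=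
  inferInstance

/-- A finitely generated field is finitely generated over a prime field. -/
lemma fg_cases {i : ℤ} {n : ℕ} (h0 : Rig M ℚ i (n + 1))
    (hp : ∀ (p : ℕ) [Fact p.Prime], Rig M (ZMod p) i (n + 1)) (F : Type) [Field F] :
    Van M (pt F) (i - 1) n := by
  refine van_fg hM fun K _ _ hK => ?_
  obtain h | ⟨p, hpp, hc⟩ := CharP.exists' K
  · have : Algebra.EssFiniteType ℚ K := Algebra.EssFiniteType.of_comp ℤ ℚ K
    exact van_of_rig hM (fun R _ => subsingleton_rat R) h0 K
  · let _ : Algebra (ZMod p) K := ZMod.algebra K p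
    have : Algebra.EssFiniteType (ZMod p) K := Algebra.EssFiniteType.of_comp ℤ (ZMod p) K
    exact van_of_rig hM (fun R _ => subsingleton_zmod p R) (hp p) K

/-- Rigidity in degree one implies the vanishing in all degrees `≤ 0`. -/
theorem van_of_rigidity (h : Rigidity M) (F : Type) [Field F] (i : ℤ) (n : ℕ) (hi : i ≤ 0)
    (hn : 1 ≤ n) : Van M (pt F) i n := by
  obtain ⟨m, rfl⟩ : ∃ m : ℕ, i = -m := ⟨(-i).toNat, by omega⟩
  induction m generalizing F n with
  | zero =>
    have h1 := fg_cases hM (i := 1) (n := n) (fun r => (h.1 r (n + 1) (by omega)).2)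
      (fun p _ r => (h.2 p r (n + 1) (by omega)).2) F
    simpa using h1
  | succ m ih =>
    have h1 := fg_cases hM (i := -m) (n := n)
      (fun r x => ⟨0, by rw [map_zero, ih _ (n + 1) (by omega) (by omega) x]⟩)
      (fun p _ r x => ⟨0, by rw [map_zero, ih _ (n + 1) (by omega) (by omega) x]⟩) F
    have h2 : (-(m : ℤ) - 1) = -((m + 1 : ℕ) : ℤ) := by push_cast; ring
    rwa [h2] at h1

/-- The vanishing in degree zero implies rigidity in degree one. -/
theorem rigidity_of_van (h : ∀ (F : Type) [Field F] (n : ℕ), 1 ≤ n → Van M (pt F) 0 n) :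
    Rigidity M := by
  have key : ∀ (k : Type) [Field k], (∀ (R : Type) [Field R], Subsingleton (k →+* R)) →
      ∀ n : ℕ, 2 ≤ n → Rig M k 1 n := by
    intro k _ hk n hn
    obtain ⟨n, rfl⟩ : ∃ m, n = m + 1 := ⟨n - 1, by omega⟩
    refine rig_of_surj hM hk fun r x => surj_res hM (fun p _ => ?_) x
    have := h (AdjoinRoot p) n (by omega)
    simpa using this
  exact ⟨fun r n hn => ⟨hM.injective _ _ _, key ℚ (fun R _ => subsingleton_rat R) n hn r⟩,
    fun p _ r n hn => ⟨hM.injective _ _ _, key (ZMod p) (fun R _ => subsingleton_zmod p R) n hn r⟩⟩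

/-- The vanishing for fields implies the vanishing for smooth schemes over fields. -/
theorem van_smooth {i : ℤ} {n : ℕ} (k : Type) [Field k] (X : Scheme.{0}) (f : X ⟶ pt k)
    (hf : Sm f) (hi : i ≤ 0) (hin : i < 0 ∨ 1 ≤ n)
    (h : ∀ (F : Type) [Field F] (_ : k →+* F) (j : ℤ) (m : ℕ), j ≤ i → (j < 0 ∨ 1 ≤ m) →
      Van M (pt F) j m) : Van M X i n := by
  refine hM.coniveau k X f hf i n fun x c _ hc => ?_
  refine h (X.residueField x) (Spec.preimage (X.fromSpecResidueField x ≫ f)).hom _ _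
    (by omega) (by omega)

/-- Beilinson–Soulé vanishing, smooth schemes, fields, degree zero and rigidity. -/
theorem strong :
    ((∀ (k : Type) [Field k] (X : Scheme.{0}) (f : X ⟶ pt k), Sm f →
      ∀ (i : ℤ) (n : ℕ), i ≤ 0 → 1 ≤ n → Van M X i n) ↔ Rigidity M) ∧
    ((∀ (F : Type) [Field F] (i : ℤ) (n : ℕ), i ≤ 0 → 1 ≤ n → Van M (pt F) i n) ↔
      Rigidity M) ∧
    ((∀ (F : Type) [Field F] (n : ℕ), 1 ≤ n → Van M (pt F) 0 n) ↔ Rigidity M) := by
  have h1 : Rigidity M → ∀ (k : Type) [Field k] (X : Scheme.{0}) (f : X ⟶ pt k), Sm f →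
      ∀ (i : ℤ) (n : ℕ), i ≤ 0 → 1 ≤ n → Van M X i n := by
    intro h k _ X f hf i n hi hn
    refine van_smooth hM k X f hf hi (Or.inr hn) fun F _ _ j m hj hm => ?_
    rcases Nat.eq_zero_or_pos m with rfl | hm'
    · exact hM.weight_zero F j (by omega)
    · exact van_of_rigidity hM h F j m (by omega) hm'
  refine ⟨⟨fun h => rigidity_of_van hM fun F _ n hn => h F (pt F) (𝟙 _) ⟨inferInstance, inferInstance, inferInstance⟩ 0 n
      le_rfl hn,
    h1⟩, ⟨fun h => rigidity_of_van hM fun F _ n hn => h F 0 n le_rfl hn,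
    fun h F _ i n hi hn => van_of_rigidity hM h F i n hi hn⟩,
    ⟨fun h => rigidity_of_van hM h, fun h F _ n hn => van_of_rigidity hM h F 0 n le_rfl hn⟩⟩

end Pool.Agent.Y116.BS
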